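import Mathlib
import Pool.Agent.H92.TD.Defs
import Pool.Agent.H92.BF.BDefs

/-!
MP_5aa732_co, project BG92: stronger form of the theorem on bull-free graphs.
-/

set_option autoImplicit false
set_option linter.unusedSectionVars false
set_option linter.unusedVariables false

namespace Pool.Agent.H92.BG

open SimpleGraph Finset Pool.Agent.H92.TD Pool.Agent.H92.BF

/-- No even hole has a hat `w` (adjacent to exactly two vertices of the hole, which are adjacent) with an antenna of
length two: an induced path `w - u - t` with `u` and `t` not adjacent to any vertex of the hole. -/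
def HatFree {V : Type} (G : SimpleGraph V) : Prop :=
  ∀ (k : ℕ) (f : SimpleGraph.cycleGraph (2 * k + 4) ↪g G) (i j : Fin (2 * k + 4)) (w u t : V),
    (SimpleGraph.cycleGraph (2 * k + 4)).Adj i j → (∀ l, G.Adj w (f l) ↔ (l = i ∨ l = j)) →
    G.Adj w u → G.Adj u t → ¬ G.Adj w t → (∀ l, ¬ G.Adj u (f l)) → (∀ l, ¬ G.Adj t (f l)) → False

/-- No bull with two nonadjacent copies `p`, `p'` of one of its leaves (path `p - a - b - q`, top `t`). -/
def B1free {V : Type} (G : SimpleGraph V) : Prop :=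
  ∀ p p' a b q t : V, G.Adj p a → G.Adj p' a → G.Adj a b → G.Adj b q → G.Adj t a → G.Adj t b →
    p ≠ p' → ¬ G.Adj p p' → ¬ G.Adj p b → ¬ G.Adj p q → ¬ G.Adj a q → ¬ G.Adj p t → ¬ G.Adj q t →
    ¬ G.Adj p' b → ¬ G.Adj p' q → ¬ G.Adj p' t → False

/-- No bull with two nonadjacent copies `t`, `t'` of its top (path `p - a - b - q`). -/
def B2free {V : Type} (G : SimpleGraph V) : Prop :=
  ∀ p a b q t t' : V, G.Adj p a → G.Adj a b → G.Adj b q → G.Adj t a → G.Adj t b → G.Adj t' a →
    G.Adj t' b → t ≠ t' → ¬ G.Adj t t' → ¬ G.Adj p b → ¬ G.Adj p q → ¬ G.Adj a q → ¬ G.Adj p t →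
    ¬ G.Adj q t → ¬ G.Adj p t' → ¬ G.Adj q t' → False

/-- no induced path of odd length at least three with ends in layer `i` and interior in higher layers -/
def NoUp {V : Type} (G : SimpleGraph V) (d : V → ℕ) (i : ℕ) : Prop :=
  ∀ (n : ℕ) (p : ℕ → V), Odd n → 3 ≤ n → IP G n p → d (p 0) = i → d (p n) = i →
    (∀ j, 0 < j → j < n → i < d (p j)) → False

/-- a vertex of layer two with a neighbour in layer three is not complete to `Z` -/
def Z3 {V : Type} (G : SimpleGraph V) (d : V → ℕ) (Z : Finset V) : Prop :=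
  ∀ y k, d y = 2 → d k = 3 → G.Adj y k → ∃ z ∈ Z, ¬ G.Adj z y

/-- two adjacent vertices of layer `i + 1`, each with a neighbour in layer `i + 2`, have a common neighbour `w` in
layer `i` which is the end of an induced path `w - u - t`, with `t` nonadjacent to both and of layer at most `i` -/
def Ant {V : Type} (G : SimpleGraph V) (d : V → ℕ) (i : ℕ) : Prop :=
  ∀ x x' k k', d x = i + 1 → d x' = i + 1 → d k = i + 2 → d k' = i + 2 → G.Adj x x' → G.Adj x k →
    G.Adj x' k' → ∃ w u t, d w = i ∧ d u + 1 = i ∧ d t ≤ i ∧ G.Adj w x ∧ G.Adj w x' ∧ G.Adj w u ∧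
      G.Adj u t ∧ ¬ G.Adj w t ∧ ¬ G.Adj t x ∧ ¬ G.Adj t x'

end Pool.Agent.H92.BG
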