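import Mathlib
import Pool.Agent.H92.TD.Defs
import Pool.Agent.H92.BF.BDefs
import Pool.Agent.H92.BG.GDefs

/-!
Row BG_Path.
`ip_pre`, `ip_app`: an induced path stays an induced path when a vertex is put in front / behind (case distinction on the indices, omega).
`ip_close`: an induced path p 0, …, p n (n ≥ 2) closed by w is an induced cycle of length n + 2.  Copy the private lemmas `hole_sub_val`, `hole_emb` of Pool/Agent/H92/BF/Hole.lean with 2 * k + 1
 replaced by a general N = n + 2 ≥ 3 (adjacency in cycleGraph N: `SimpleGraph.cycleGraph_adj'`); f j := if j ≤ n then p j else w.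
`bg_odd`: n odd, n ≥ 3: the cycle of `ip_close` has length n + 2 = 2 * k + 1 with k ≥ 2 (write n = 2 * k' + 3 and subst, n + 2 = 2 * (k' + 2) + 1): contradiction to `ho`.
-/

set_option autoImplicit false
set_option linter.unusedSectionVars false
set_option linter.unusedVariables false

namespace Pool.Agent.H92.BG

open SimpleGraph Finset Pool.Agent.H92.TD Pool.Agent.H92.BF

private theorem path_sub_val {N : ℕ} (a b : Fin N) :
    (a - b).val = if b.val ≤ a.val then a.val - b.val else N - b.val + a.val := by
  have ha := a.isLt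
  have hb := b.isLt
  rw [Fin.val_sub]
  split_ifs with h
  · have e : N - b.val + a.val = (a.val - b.val) + N := by omega
    rw [e, Nat.add_mod_right, Nat.mod_eq_of_lt (by omega)]
  · rw [Nat.mod_eq_of_lt (by omega)]

private theorem path_emb {V : Type} {G : SimpleGraph V} {f : ℕ → V} {N : ℕ} (hN : 3 ≤ N)
    (hf : ∀ i, i + 1 < N → G.Adj (f i) (f (i + 1))) (hlast : G.Adj (f (N - 1)) (f 0))
    (hinj : ∀ i j, i < j → j < N → f i ≠ f j)
    (hadj : ∀ i j, i < j → j < N → G.Adj (f i) (f j) → j = i + 1 ∨ (i = 0 ∧ j = N - 1)) :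
    ∃ φ : SimpleGraph.cycleGraph N ↪g G, ∀ i : Fin N, φ i = f i.val := by
  have hinj' : Function.Injective (fun i : Fin N => f i.val) := by
    intro a b hab
    rcases Nat.lt_trichotomy a.val b.val with h | h | h
    · exact absurd hab (hinj _ _ h b.isLt)
    · exact Fin.ext h
    · exact absurd hab.symm (hinj _ _ h a.isLt)
  refine ⟨⟨⟨fun i => f i.val, hinj'⟩, ?_⟩, fun i => rfl⟩
  intro a b
  change G.Adj (f a.val) (f b.val) ↔ _
  have ha := a.isLt
  have hb := b.isLt
  rw [SimpleGraph.cycleGraph_adj', path_sub_val, path_sub_val]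
  constructor
  · intro h
    rcases Nat.lt_trichotomy a.val b.val with h1 | h1 | h1
    · rcases hadj _ _ h1 hb h with h2 | ⟨h2, h3⟩
      · right
        rw [if_pos h1.le]
        omega
      · left
        rw [if_neg (by omega)]
        omega
    · rw [h1] at h
      exact absurd h (G.loopless.irrefl _)
    · rcases hadj _ _ h1 ha h.symm with h2 | ⟨h2, h3⟩
      · left
        rw [if_pos h1.le]
        omega
      · right
        rw [if_neg (by omega)]
        omega
  · intro h
    have key : ∀ x y : ℕ, x < N → y < N →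
        (if y ≤ x then x - y else N - y + x) = 1 → G.Adj (f x) (f y) := by
      intro x y hx hy h1
      split_ifs at h1 with h2
      · have e : x = y + 1 := by omega
        rw [e]
        exact (hf y (by omega)).symm
      · have e1 : y = N - 1 := by omega
        have e2 : x = 0 := by omega
        rw [e1, e2]
        exact hlast.symm
    rcases h with h | h
    · exact key _ _ ha hb h
    · exact (key _ _ hb ha h).symm

theorem ip_pre {V : Type} {G : SimpleGraph V} {n : ℕ} {p : ℕ → V} (hp : IP G n p) {x : V}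
    (h0 : G.Adj x (p 0)) (hx : ∀ j, 0 < j → j ≤ n → ¬ G.Adj x (p j)) (hne : ∀ j, j ≤ n → x ≠ p j) :
    IP G (n + 1) (fun j => if j = 0 then x else p (j - 1)) := by
  refine ⟨?_, ?_⟩
  · intro i j hij hj
    have hj0 : ¬ j = 0 := by omega
    by_cases hi : i = 0
    · simp only [if_pos hi, if_neg hj0]
      exact hne _ (by omega)
    · simp only [if_neg hi, if_neg hj0]
      exact hp.1 _ _ (by omega) (by omega)
  · intro i j hij hj
    have hj0 : ¬ j = 0 := by omega
    by_cases hi : i = 0
    · simp only [if_pos hi, if_neg hj0]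
      by_cases h1 : j = 1
      · subst h1
        subst hi
        exact iff_of_true h0 rfl
      · exact iff_of_false (hx _ (by omega) (by omega)) (by omega)
    · simp only [if_neg hi, if_neg hj0]
      rw [hp.2 _ _ (by omega) (by omega)]
      omega

theorem ip_app {V : Type} {G : SimpleGraph V} {n : ℕ} {p : ℕ → V} (hp : IP G n p) {x : V}
    (h0 : G.Adj (p n) x) (hx : ∀ j, j < n → ¬ G.Adj (p j) x) (hne : ∀ j, j ≤ n → p j ≠ x) :
    IP G (n + 1) (fun j => if j ≤ n then p j else x) := by
  refine ⟨?_, ?_⟩
  · intro i j hij hj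
    have hi : i ≤ n := by omega
    by_cases hjn : j ≤ n
    · simp only [if_pos hi, if_pos hjn]
      exact hp.1 _ _ hij hjn
    · simp only [if_pos hi, if_neg hjn]
      exact hne _ hi
  · intro i j hij hj
    have hi : i ≤ n := by omega
    by_cases hjn : j ≤ n
    · simp only [if_pos hi, if_pos hjn]
      exact hp.2 _ _ hij hjn
    · simp only [if_pos hi, if_neg hjn]
      by_cases h1 : i = n
      · subst h1
        exact iff_of_true h0 (by omega)
      · exact iff_of_false (hx _ (by omega)) (by omega)

theorem ip_close {V : Type} {G : SimpleGraph V} {n : ℕ} {p : ℕ → V} (hp : IP G n p) (h2 : 2 ≤ n)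
    {w : V} (h0 : G.Adj w (p 0)) (hn : G.Adj w (p n)) (hw : ∀ j, 0 < j → j < n → ¬ G.Adj w (p j))
    (hne : ∀ j, j ≤ n → p j ≠ w) :
    ∃ φ : SimpleGraph.cycleGraph (n + 2) ↪g G, ∀ i : Fin (n + 2),
      φ i = if i.val ≤ n then p i.val else w := by
  have e1 : ∀ i, i ≤ n → (if i ≤ n then p i else w) = p i := fun i hi => if_pos hi
  have e2 : ∀ i, ¬ i ≤ n → (if i ≤ n then p i else w) = w := fun i hi => if_neg hi
  refine path_emb (G := G) (f := fun j : ℕ => if j ≤ n then p j else w) (N := n + 2) (by omega)
    ?_ ?_ ?_ ?_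
  · intro i hi
    have hi' : i ≤ n := by omega
    rw [e1 i hi']
    by_cases h : i + 1 ≤ n
    · rw [e1 _ h]
      exact (hp.2 i (i + 1) (by omega) h).2 rfl
    · rw [e2 _ h]
      have : i = n := by omega
      rw [this]
      exact hn.symm
  · rw [e2 (n + 2 - 1) (by omega), e1 0 (by omega)]
    exact h0
  · intro i j hij hj
    have hi : i ≤ n := by omega
    rw [e1 i hi]
    by_cases h : j ≤ n
    · rw [e1 j h]
      exact hp.1 i j hij h
    · rw [e2 j h]
      exact hne i hi
  · intro i j hij hj ha
    have hi : i ≤ n := by omega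
    rw [e1 i hi] at ha
    by_cases h : j ≤ n
    · rw [e1 j h] at ha
      exact Or.inl ((hp.2 i j hij h).1 ha)
    · rw [e2 j h] at ha
      by_cases h3 : i = n
      · left
        omega
      · right
        refine ⟨?_, by omega⟩
        by_contra hcon
        exact hw i (by omega) (by omega) ha.symm

theorem bg_odd {V : Type} {G : SimpleGraph V} (ho : OddHoleFree G) {n : ℕ} {p : ℕ → V}
    (hp : IP G n p) (hodd : Odd n) (h3 : 3 ≤ n) {w : V} (h0 : G.Adj w (p 0)) (hn : G.Adj w (p n))
    (hw : ∀ j, 0 < j → j < n → ¬ G.Adj w (p j)) (hne : ∀ j, j ≤ n → p j ≠ w) : False := by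
  obtain ⟨m, hm⟩ := hodd
  obtain ⟨k, rfl⟩ : ∃ k, m = k + 1 := ⟨m - 1, by omega⟩
  subst hm
  obtain ⟨φ, -⟩ := ip_close hp (by omega) h0 hn hw hne
  exact (ho (k + 2) (by omega)).false φ

end Pool.Agent.H92.BG
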