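import Mathlib
import Pool.Agent.H92.TD.Defs
import Pool.Agent.H92.BF.BDefs
import Pool.Agent.H92.BG.GDefs
import Pool.Agent.H92.BG.Path

/-!
Row BG_Hat.
`bg_hat`: n odd (n = 1 allowed).  Path x, p 0, …, p n (`ip_pre`), length n + 1 ≥ 2, closed by x' (`ip_close`; x' ~ x, x' ~ p n): induced cycle of length n + 3 = 2 * k + 4 (write n = 2 * k + 1 and subst; n + 1 + 2 = 2 * k + 4).
 In it x is the vertex 0 and x' the last vertex n + 2, they are adjacent in the cycle graph (`SimpleGraph.cycleGraph_adj'`, or from G.Adj x x' through the embedding: `φ.map_adj_iff`);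
 w is adjacent to exactly these two, u and t to none: contradiction to `hh`.
`ant`: i = 1: N_Z(x) and N_Z(x') are nested: otherwise z, z' ∈ Z with z ~ x, z ≁ x', z' ~ x', z' ≁ x and the C_5  v, z, x, x', z'.  Say every z ∈ Z adjacent to x is adjacent to x' (other case symmetric).  `h.Z2 x` gives w ∈ Z with w ~ x,
 so w ~ x'.  `hZ3` for x', k' gives t ∈ Z with t ≁ x', hence t ≁ x.  u := v.  d w = d t = 1 (adjacent to v, not v), d v = 0, w ≁ t (`h.Zs`).
 i ≥ 2: CompK i for the clique {x, x'} (as in `bf_same` in Pool/Agent/H92/BF/Lay1.lean) gives w, `h.d2 w` gives u (d u + 1 = i), `h.d2 u` gives t (d t + 2 = i); nonadjacencies by layers.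
-/

set_option autoImplicit false
set_option linter.unusedSectionVars false
set_option linter.unusedVariables false

namespace Pool.Agent.H92.BG

open SimpleGraph Finset Pool.Agent.H92.TD Pool.Agent.H92.BF

private theorem hat_nadj {V : Type} {G : SimpleGraph V} {v : V} {d : V → ℕ} {Z : Finset V}
    (h : Lay G v d Z) {x y : V} (hd : d x + 1 < d y) : ¬ G.Adj x y := by
  intro ha
  have := h.d1 y x ha.symm
  omega

private theorem hat_dz {V : Type} {G : SimpleGraph V} {v : V} {d : V → ℕ} {Z : Finset V}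
    (h : Lay G v d Z) {z : V} (hz : z ∈ Z) : d z = 1 := by
  have h1 := h.Z1 z hz
  have h2 := h.d1 z v h1.symm
  have h3 : d v = 0 := (h.d0 v).2 rfl
  have h4 : d z ≠ 0 := by
    intro e
    have h5 := (h.d0 z).1 e
    rw [h5] at h1
    exact G.loopless.irrefl _ h1
  omega

theorem bg_hat {V : Type} {G : SimpleGraph V} (hh : HatFree G) {n : ℕ} {p : ℕ → V}
    (hp : IP G n p) (hodd : Odd n) {x x' w u t : V} (hx0 : G.Adj x (p 0))
    (hx : ∀ j, 0 < j → j ≤ n → ¬ G.Adj x (p j)) (hxne : ∀ j, j ≤ n → x ≠ p j)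
    (hxn : G.Adj x' (p n)) (hx' : ∀ j, j < n → ¬ G.Adj x' (p j)) (hxne' : ∀ j, j ≤ n → x' ≠ p j)
    (hxx : G.Adj x x') (hwx : G.Adj w x) (hwx' : G.Adj w x') (hw : ∀ j, j ≤ n → ¬ G.Adj w (p j))
    (hwu : G.Adj w u) (hut : G.Adj u t) (hwt : ¬ G.Adj w t) (hux : ¬ G.Adj u x)
    (hux' : ¬ G.Adj u x') (hu : ∀ j, j ≤ n → ¬ G.Adj u (p j)) (htx : ¬ G.Adj t x)
    (htx' : ¬ G.Adj t x') (ht : ∀ j, j ≤ n → ¬ G.Adj t (p j)) : False := by
  obtain ⟨k, hk⟩ := hodd
  subst hk
  have hq := ip_pre hp hx0 hx hxne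
  have hcl := ip_close hq (w := x') (by omega)
    (by
      simp only [if_true]
      exact hxx.symm)
    (by
      have e : ¬ (2 * k + 1 + 1 = 0) := by omega
      simp only [if_neg e]
      exact hxn)
    (by
      intro j hj0 hj
      have e : ¬ (j = 0) := by omega
      simp only [if_neg e]
      exact hx' _ (by omega))
    (by
      intro j hj
      by_cases e : j = 0
      · simp only [if_pos e]
        exact hxx.ne
      · simp only [if_neg e]
        exact (hxne' _ (by omega)).symm)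
  have e4 : 2 * k + 1 + 1 + 2 = 2 * k + 4 := by ring
  rw [e4] at hcl
  obtain ⟨φ, hφ⟩ := hcl
  have f0 : ∀ l : Fin (2 * k + 4), l.val = 0 → φ l = x := by
    intro l hl
    rw [hφ l, if_pos (by omega)]
    simp only [if_pos hl]
  have f1 : ∀ l : Fin (2 * k + 4), l.val = 2 * k + 3 → φ l = x' := by
    intro l hl
    rw [hφ l, if_neg (by omega)]
  have f2 : ∀ l : Fin (2 * k + 4), l.val ≠ 0 → l.val ≠ 2 * k + 3 →
      ∃ j, j ≤ 2 * k + 1 ∧ φ l = p j := by
    intro l h0 h1
    have hl := l.isLt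
    refine ⟨l.val - 1, by omega, ?_⟩
    rw [hφ l, if_pos (by omega)]
    simp only [if_neg h0]
  have hall : ∀ (a : V), ¬ G.Adj a x → ¬ G.Adj a x' → (∀ j, j ≤ 2 * k + 1 → ¬ G.Adj a (p j)) →
      ∀ l : Fin (2 * k + 4), ¬ G.Adj a (φ l) := by
    intro a h1 h2 h3 l
    by_cases c0 : l.val = 0
    · rw [f0 l c0]
      exact h1
    by_cases c1 : l.val = 2 * k + 3
    · rw [f1 l c1]
      exact h2
    obtain ⟨j, hj, e⟩ := f2 l c0 c1
    rw [e]
    exact h3 j hj
  refine hh k φ ⟨0, by omega⟩ ⟨2 * k + 3, by omega⟩ w u t ?_ ?_ hwu hut hwt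
    (hall u hux hux' hu) (hall t htx htx' ht)
  · rw [← φ.map_adj_iff, f0 _ rfl, f1 _ rfl]
    exact hxx
  · intro l
    by_cases c0 : l.val = 0
    · rw [f0 l c0]
      exact iff_of_true hwx (Or.inl (Fin.ext c0))
    by_cases c1 : l.val = 2 * k + 3
    · rw [f1 l c1]
      exact iff_of_true hwx' (Or.inr (Fin.ext c1))
    obtain ⟨j, hj, e⟩ := f2 l c0 c1
    rw [e]
    refine iff_of_false (hw j hj) ?_
    rintro (e1 | e1)
    · exact c0 (by rw [e1])
    · exact c1 (by rw [e1])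

theorem ant {V : Type} {G : SimpleGraph V} {v : V} {d : V → ℕ} {Z : Finset V}
    (h : Lay G v d Z) (h5 : C5free G) (hZ3 : Z3 G d Z) {i : ℕ} (hi : 1 ≤ i) (hc : CompK G d i) :
    Ant G d i := by
  classical
  intro x x' k k' hx hx' hk hk' hxx hxk hxk'
  have hv : d v = 0 := (h.d0 v).2 rfl
  rcases Nat.lt_or_ge 1 i with hi2 | hi1
  · obtain ⟨w, hw, hwa⟩ := hc {x, x'} ⟨x, by simp⟩
      (by
        intro a ha b hb' hab
        simp only [Finset.coe_insert, Finset.coe_singleton, Set.mem_insert_iff,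
          Set.mem_singleton_iff] at ha hb'
        rcases ha with rfl | rfl <;> rcases hb' with rfl | rfl
        · exact absurd rfl hab
        · exact hxx
        · exact hxx.symm
        · exact absurd rfl hab)
      (by
        intro a ha
        simp only [Finset.mem_insert, Finset.mem_singleton] at ha
        rcases ha with rfl | rfl
        · exact hx
        · exact hx')
    obtain ⟨u, hwu, hu⟩ := h.d2 w (by omega)
    obtain ⟨t, hut, ht⟩ := h.d2 u (by omega)
    refine ⟨w, u, t, hw, by omega, by omega, hwa x (by simp), hwa x' (by simp), hwu, hut,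
      fun ha => hat_nadj h (x := t) (y := w) (by omega) ha.symm,
      hat_nadj h (by omega), hat_nadj h (by omega)⟩
  · have hi' : i = 1 := by omega
    subst hi'
    by_cases c1 : ∀ z ∈ Z, G.Adj z x → G.Adj z x'
    · obtain ⟨w, hw, hwx⟩ := h.Z2 x hx
      obtain ⟨t, ht, htx⟩ := hZ3 x' k' hx' hk' hxk'
      exact ⟨w, v, t, hat_dz h hw, by omega, (hat_dz h ht).le, hwx, c1 w hw hwx,
        (h.Z1 w hw).symm, h.Z1 t ht, h.Zs w hw t ht, fun ha => htx (c1 t ht ha), htx⟩
    by_cases c2 : ∀ z ∈ Z, G.Adj z x' → G.Adj z x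
    · obtain ⟨w, hw, hwx⟩ := h.Z2 x' hx'
      obtain ⟨t, ht, htx⟩ := hZ3 x k hx hk hxk
      exact ⟨w, v, t, hat_dz h hw, by omega, (hat_dz h ht).le, c2 w hw hwx, hwx,
        (h.Z1 w hw).symm, h.Z1 t ht, h.Zs w hw t ht, htx, fun ha => htx (c2 t ht ha)⟩
    exfalso
    push Not at c1 c2
    obtain ⟨z, hz, hzx, hzx'⟩ := c1
    obtain ⟨z', hz', hz'x', hz'x⟩ := c2
    exact h5 v z x x' z' (h.Z1 z hz) hzx hxx hz'x'.symm (h.Z1 z' hz').symm
      (hat_nadj h (by omega)) hzx' (fun ha => hz'x ha.symm)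
      (fun ha => hat_nadj h (x := v) (y := x') (by omega) ha.symm) (h.Zs z' hz' z hz)

end Pool.Agent.H92.BG
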