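import Mathlib
import Pool.Agent.H92.TD.Defs
import Pool.Agent.H92.BF.BDefs
import Pool.Agent.H92.BG.GDefs
import Pool.Agent.H92.BG.Path
import Pool.Agent.H92.BG.Hat

/-!
Row BG_Comp.  Adapt the proof of `bf_comp` in Pool/Agent/H92/BF/Lay2.lean.
K a nonempty clique of layer i + 2.  y of layer i + 1 with |K.filter (y ~ ·)| maximal.  Suppose k ∈ K, y ≁ k; y' of layer i + 1 with y' ~ k; k1 ∈ K with y ~ k1, y' ≁ k1; k1 ~ k; y ≠ y' (all as in `bf_comp`).
 y ≁ y': the path y, k1, k, y' is induced, of length 3, ends in layer i + 1, interior in layer i + 2: contradiction to NoUp (i + 1) (n := 3, p := fun j => if j = 0 then y else if j = 1 then k1 else if j = 2 then k else y').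
 y ~ y': `ha` (x := y, x' := y', k := k1, k' := k) gives w, u, t.  `bg_hat` with n := 1, p := fun j => if j = 0 then k1 else k, x := y, x' := y':
 y ~ k1, y ≁ k, y' ~ k, y' ≁ k1, y ~ y', w ≁ k1, k (layers i and i + 2), u ≁ y, y', k1, k (layers), t ≁ k1, k (layers ≤ i and i + 2).
-/

set_option autoImplicit false
set_option linter.unusedSectionVars false
set_option linter.unusedVariables false

namespace Pool.Agent.H92.BG

open SimpleGraph Finset Pool.Agent.H92.TD Pool.Agent.H92.BF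

private theorem comp_na {V : Type} {G : SimpleGraph V} {v : V} {d : V → ℕ} {Z : Finset V}
    (h : Lay G v d Z) {x y : V} (hd : d x + 2 ≤ d y) : ¬ G.Adj x y := by
  intro ha
  have h1 := h.d1 _ _ ha.symm
  omega

private theorem comp_ne {V : Type} {d : V → ℕ} {x y : V} (hd : d x ≠ d y) : x ≠ y :=
  fun e => hd (by rw [e])

theorem compS {V : Type} [Fintype V] {G : SimpleGraph V} {v : V} {d : V → ℕ} {Z : Finset V}
    (h : Lay G v d Z) (hh : HatFree G) {i : ℕ} (hi : 1 ≤ i)
    (ha : Ant G d i) (hu : NoUp G d (i + 1)) : CompK G d (i + 1) := by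
  classical
  intro K hKn hK hKd
  set S : Finset V := Finset.univ.filter (fun y => d y = i + 1) with hS
  have hSn : S.Nonempty := by
    obtain ⟨k, hk⟩ := hKn
    obtain ⟨x, hx, hxd⟩ := h.d2 k (by rw [hKd k hk]; omega)
    exact ⟨x, by rw [hS, mem_filter]; exact ⟨mem_univ _, by rw [hKd k hk] at hxd; omega⟩⟩
  obtain ⟨y, hyS, hmax⟩ :=
    S.exists_max_image (fun y => (K.filter (fun k => G.Adj y k)).card) hSn
  have hyd : d y = i + 1 := (mem_filter.1 hyS).2
  refine ⟨y, hyd, ?_⟩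
  intro k hk
  by_contra hyk
  obtain ⟨y', hky', hy'd⟩ := h.d2 k (by rw [hKd k hk]; omega)
  have hy'd' : d y' = i + 1 := by rw [hKd k hk] at hy'd; omega
  have hle := hmax y' (by rw [hS, mem_filter]; exact ⟨mem_univ _, hy'd'⟩)
  have hnot : ∃ k1 ∈ K, G.Adj y k1 ∧ ¬ G.Adj y' k1 := by
    by_contra hcon
    have hcon' : ∀ k1 ∈ K, G.Adj y k1 → G.Adj y' k1 := by
      intro k1 h1 h2
      by_contra h3
      exact hcon ⟨k1, h1, h2, h3⟩
    have hss : K.filter (fun k => G.Adj y k) ⊂ K.filter (fun k => G.Adj y' k) := by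
      rw [Finset.ssubset_iff_of_subset]
      · exact ⟨k, mem_filter.2 ⟨hk, hky'.symm⟩, fun hh => hyk (mem_filter.1 hh).2⟩
      · intro x hx
        exact mem_filter.2 ⟨(mem_filter.1 hx).1, hcon' x (mem_filter.1 hx).1 (mem_filter.1 hx).2⟩
    exact absurd (card_lt_card hss) (not_lt.2 hle)
  obtain ⟨k1, hk1, hyk1, hy'k1⟩ := hnot
  have hne : k1 ≠ k := fun e => hyk (e ▸ hyk1)
  have hadj : G.Adj k1 k := hK (by exact_mod_cast hk1) (by exact_mod_cast hk) hne
  have hyy : y ≠ y' := fun e => hy'k1 (e ▸ hyk1)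
  have hkd : d k = i + 2 := by rw [hKd k hk]
  have hk1d : d k1 = i + 2 := by rw [hKd k1 hk1]
  by_cases hyy' : G.Adj y y'
  · obtain ⟨w, u, t, hw, hud, ht, hwy, hwy', hwu, hut, hwt, hty, hty'⟩ :=
      ha y y' k1 k hyd hy'd' hk1d hkd hyy' hyk1 hky'.symm
    obtain ⟨q, hq⟩ : ∃ q : ℕ → V, q = fun j => if j = 0 then k1 else k := ⟨_, rfl⟩
    have q0 : q 0 = k1 := by rw [hq]; simp
    have q1 : q 1 = k := by rw [hq]; simp
    have hqd : ∀ j, d (q j) = i + 2 := by
      intro j
      rw [hq]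
      show d (if j = 0 then k1 else k) = i + 2
      split_ifs
      · exact hk1d
      · exact hkd
    have hp : IP G 1 q := by
      refine ⟨?_, ?_⟩
      · intro a b hab hb
        have ea : a = 0 := by omega
        have eb : b = 1 := by omega
        rw [ea, eb, q0, q1]
        exact hne
      · intro a b hab hb
        have ea : a = 0 := by omega
        have eb : b = 1 := by omega
        rw [ea, eb, q0, q1]
        exact ⟨fun _ => rfl, fun _ => hadj⟩
    refine bg_hat hh hp odd_one (x := y) (x' := y') (w := w) (u := u) (t := t)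
      (by rw [q0]; exact hyk1) ?_ ?_ (by rw [q1]; exact hky'.symm) ?_ ?_ hyy' hwy hwy' ?_ hwu hut
      hwt ?_ ?_ ?_ hty hty' ?_
    · intro j h1 h2
      have e : j = 1 := by omega
      rw [e, q1]
      exact hyk
    · intro j _
      exact comp_ne (d := d) (by rw [hqd, hyd]; omega)
    · intro j h1
      have e : j = 0 := by omega
      rw [e, q0]
      exact hy'k1
    · intro j _
      exact comp_ne (d := d) (by rw [hqd, hy'd']; omega)
    · intro j _
      exact comp_na h (by rw [hqd, hw])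
    · exact comp_na h (by rw [hyd]; omega)
    · exact comp_na h (by rw [hy'd']; omega)
    · intro j _
      exact comp_na h (by rw [hqd]; omega)
    · intro j _
      exact comp_na h (by rw [hqd]; omega)
  · obtain ⟨q, hq⟩ : ∃ q : ℕ → V, q = fun j => if j = 0 then y else if j = 1 then k1 else
        if j = 2 then k else y' := ⟨_, rfl⟩
    have q0 : q 0 = y := by rw [hq]; simp
    have q1 : q 1 = k1 := by rw [hq]; simp
    have q2 : q 2 = k := by rw [hq]; simp
    have q3 : q 3 = y' := by rw [hq]; simp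
    refine hu 3 q (by decide) le_rfl ⟨?_, ?_⟩ (by rw [q0, hyd]) (by rw [q3, hy'd']) ?_
    · intro a b hab hb
      have hc : (a = 0 ∧ b = 1) ∨ (a = 0 ∧ b = 2) ∨ (a = 0 ∧ b = 3) ∨ (a = 1 ∧ b = 2) ∨
        (a = 1 ∧ b = 3) ∨ (a = 2 ∧ b = 3) := by omega
      rcases hc with ⟨rfl, rfl⟩ | ⟨rfl, rfl⟩ | ⟨rfl, rfl⟩ | ⟨rfl, rfl⟩ | ⟨rfl, rfl⟩ | ⟨rfl, rfl⟩
      · rw [q0, q1]
        exact hyk1.ne
      · rw [q0, q2]
        exact comp_ne (d := d) (by rw [hyd, hkd]; omega)
      · rw [q0, q3]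
        exact hyy
      · rw [q1, q2]
        exact hne
      · rw [q1, q3]
        exact comp_ne (d := d) (by rw [hk1d, hy'd']; omega)
      · rw [q2, q3]
        exact hky'.ne
    · intro a b hab hb
      have hc : (a = 0 ∧ b = 1) ∨ (a = 0 ∧ b = 2) ∨ (a = 0 ∧ b = 3) ∨ (a = 1 ∧ b = 2) ∨
        (a = 1 ∧ b = 3) ∨ (a = 2 ∧ b = 3) := by omega
      rcases hc with ⟨rfl, rfl⟩ | ⟨rfl, rfl⟩ | ⟨rfl, rfl⟩ | ⟨rfl, rfl⟩ | ⟨rfl, rfl⟩ | ⟨rfl, rfl⟩
      · rw [q0, q1]
        exact ⟨fun _ => rfl, fun _ => hyk1⟩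
      · rw [q0, q2]
        exact ⟨fun hh => absurd hh hyk, fun hh => by omega⟩
      · rw [q0, q3]
        exact ⟨fun hh => absurd hh hyy', fun hh => by omega⟩
      · rw [q1, q2]
        exact ⟨fun _ => rfl, fun _ => hadj⟩
      · rw [q1, q3]
        exact ⟨fun hh => absurd hh.symm hy'k1, fun hh => by omega⟩
      · rw [q2, q3]
        exact ⟨fun _ => rfl, fun _ => hky'⟩
    · intro j h1 h2
      have e : j = 1 ∨ j = 2 := by omega
      rcases e with rfl | rfl
      · rw [q1, hk1d]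
        omega
      · rw [q2, hkd]
        omega

end Pool.Agent.H92.BG
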