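import Mathlib
import Pool.Agent.H92.TD.Defs
import Pool.Agent.H92.BF.BDefs
import Pool.Agent.H92.BG.GDefs
import Pool.Agent.H92.BG.Path
import Pool.Agent.H92.BG.Hat

/-!
Row BG_Up.  Nonadjacency between layers i and j with |i - j| ≥ 2, and x ≠ y for different layers, come from `h.d1` (both directions) + omega.
Let p be an induced path of odd length n ≥ 3 with ends in layer i and interior in higher layers.
`up2` (i = 2): z ∈ Z with z ~ p 0, z' ∈ Z with z' ~ p n (`h.Z2`).  d z = d z' = 1.  z, z' are nonadjacent to the interior (layers ≥ 3).  If z ~ p n: `bg_odd` with w := z.  If z' ~ p 0: `bg_odd` with w := z'.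
 Otherwise z ≠ z', z ≁ z' (`h.Zs`).  `ip_pre` with z and `ip_app` with z' : induced path of length n + 2 from z to z' (odd).  v is adjacent to z, z' and nonadjacent to and different from all p j (layers ≥ 2, v has layer 0): `bg_odd` with w := v.
`upS` (layer i + 2, i ≥ 1): x ~ p 0, x' ~ p n with d x = d x' = i + 1 (`h.d2`).  They are nonadjacent to the interior of p (layers ≥ i + 3).  If x ~ p n: `bg_odd` with w := x.  If x' ~ p 0: `bg_odd` with w := x'.  Otherwise x ≠ x'.
 If x ≁ x': `ip_pre`, `ip_app`: induced path of length n + 2 from x to x', interior p 0 … p n in layers ≥ i + 2 > i + 1: contradiction to NoUp (i + 1).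
 If x ~ x': `ha` (with k := p 0, k' := p n) gives w, u, t.  w ≁ p j (layers i and ≥ i + 2), u ≁ x, x' (layers i - 1 and i + 1), u ≁ p j, t ≁ p j (layers ≤ i and ≥ i + 2): `bg_hat`.
-/

set_option autoImplicit false
set_option linter.unusedSectionVars false
set_option linter.unusedVariables false

namespace Pool.Agent.H92.BG

open SimpleGraph Finset Pool.Agent.H92.TD Pool.Agent.H92.BF

private theorem up_ext {V : Type} {G : SimpleGraph V} {n : ℕ} {p : ℕ → V} (hp : IP G n p)
    {x x' : V} (h0 : G.Adj x (p 0)) (hn : G.Adj x' (p n))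
    (hx : ∀ j, 0 < j → j ≤ n → ¬ G.Adj x (p j)) (hx' : ∀ j, j < n → ¬ G.Adj x' (p j))
    (hne : ∀ j, j ≤ n → x ≠ p j) (hne' : ∀ j, j ≤ n → x' ≠ p j) (hxx : x ≠ x')
    (hna : ¬ G.Adj x x') :
    ∃ r : ℕ → V, IP G (n + 2) r ∧ r 0 = x ∧ r (n + 2) = x' ∧
      ∀ j, 0 < j → j < n + 2 → r j = p (j - 1) := by
  have hq := ip_pre hp h0 hx hne
  refine ⟨_, ip_app hq (x := x') ?_ ?_ ?_, ?_, ?_, ?_⟩
  · simp only [Nat.add_eq_zero_iff, one_ne_zero, and_false, if_false, Nat.add_sub_cancel]
    exact hn.symm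
  · intro j hj
    by_cases hj0 : j = 0
    · rw [if_pos hj0]
      exact hna
    · rw [if_neg hj0]
      exact fun e => hx' (j - 1) (by omega) e.symm
  · intro j hj
    by_cases hj0 : j = 0
    · rw [if_pos hj0]
      exact hxx
    · rw [if_neg hj0]
      exact fun e => hne' (j - 1) (by omega) e.symm
  · simp
  · have e : ¬ (n + 2 ≤ n + 1) := by omega
    simp only [if_neg e]
  · intro j hj0 hj
    have e1 : j ≤ n + 1 := by omega
    have e2 : j ≠ 0 := by omega
    simp only [if_pos e1, if_neg e2]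

private theorem up_nadj {V : Type} {G : SimpleGraph V} {v : V} {d : V → ℕ} {Z : Finset V}
    (h : Lay G v d Z) {x y : V} (hd : d x + 1 < d y) : ¬ G.Adj x y := by
  intro ha
  have := h.d1 y x ha.symm
  omega

private theorem up_nadj' {V : Type} {G : SimpleGraph V} {v : V} {d : V → ℕ} {Z : Finset V}
    (h : Lay G v d Z) {x y : V} (hd : d y + 1 < d x) : ¬ G.Adj x y :=
  fun ha => up_nadj h hd ha.symm

private theorem up_ne {V : Type} {d : V → ℕ} {x y : V} (hd : d x ≠ d y) : x ≠ y :=
  fun e => hd (by rw [e])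

theorem up2 {V : Type} {G : SimpleGraph V} {v : V} {d : V → ℕ} {Z : Finset V}
    (h : Lay G v d Z) (ho : OddHoleFree G) : NoUp G d 2 := by
  intro n p hodd h3 hp hd0 hdn hin
  have hdv : d v = 0 := (h.d0 v).2 rfl
  have hdz : ∀ z ∈ Z, d z = 1 := by
    intro z hz
    have h1 := h.Z1 z hz
    have h2 := h.d1 z v h1.symm
    have h4 : d z ≠ 0 := fun e => G.ne_of_adj h1 ((h.d0 z).1 e).symm
    omega
  have hge : ∀ j, j ≤ n → 2 ≤ d (p j) := by
    intro j hj
    rcases Nat.eq_zero_or_pos j with h4 | h4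
    · rw [h4, hd0]
    · rcases Nat.lt_or_ge j n with h5 | h5
      · exact (hin j h4 h5).le
      · have h6 : j = n := by omega
        rw [h6, hdn]
  obtain ⟨z, hz, hz0⟩ := h.Z2 (p 0) hd0
  obtain ⟨z', hz', hzn⟩ := h.Z2 (p n) hdn
  have a1 := hdz z hz
  have a2 := hdz z' hz'
  have b1 : ∀ j, j ≤ n → z ≠ p j := fun j hj => up_ne (d := d) (by have := hge j hj; omega)
  have b2 : ∀ j, j ≤ n → z' ≠ p j := fun j hj => up_ne (d := d) (by have := hge j hj; omega)
  have c1 : ∀ j, 0 < j → j < n → ¬ G.Adj z (p j) := fun j h1 h2 =>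
    up_nadj h (by have := hin j h1 h2; omega)
  have c2 : ∀ j, 0 < j → j < n → ¬ G.Adj z' (p j) := fun j h1 h2 =>
    up_nadj h (by have := hin j h1 h2; omega)
  by_cases e1 : G.Adj z (p n)
  · exact bg_odd ho hp hodd h3 hz0 e1 c1 (fun j hj => (b1 j hj).symm)
  by_cases e2 : G.Adj z' (p 0)
  · exact bg_odd ho hp hodd h3 e2 hzn c2 (fun j hj => (b2 j hj).symm)
  have e3 : z ≠ z' := by
    rintro rfl
    exact e1 hzn
  obtain ⟨r, hr, r0, rn, rj⟩ := up_ext hp hz0 hzn
    (fun j h1 h2 => by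
      rcases Nat.lt_or_ge j n with h5 | h5
      · exact c1 j h1 h5
      · have h6 : j = n := by omega
        rw [h6]
        exact e1)
    (fun j h2 => by
      rcases Nat.eq_zero_or_pos j with h4 | h4
      · rw [h4]
        exact e2
      · exact c2 j h4 h2)
    b1 b2 e3 (h.Zs z hz z' hz')
  refine bg_odd ho hr (hodd.add_even (by decide)) (by omega) (w := v) ?_ ?_ ?_ ?_
  · rw [r0]
    exact h.Z1 z hz
  · rw [rn]
    exact h.Z1 z' hz'
  · intro j h1 h2
    rw [rj j h1 h2]
    exact up_nadj h (by have := hge (j - 1) (by omega); omega)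
  · intro j hj
    rcases Nat.eq_zero_or_pos j with h4 | h4
    · rw [h4, r0]
      exact up_ne (d := d) (by omega)
    · rcases Nat.lt_or_ge j (n + 2) with h5 | h5
      · rw [rj j h4 h5]
        exact up_ne (d := d) (by have := hge (j - 1) (by omega); omega)
      · have h6 : j = n + 2 := by omega
        rw [h6, rn]
        exact up_ne (d := d) (by omega)

theorem upS {V : Type} {G : SimpleGraph V} {v : V} {d : V → ℕ} {Z : Finset V}
    (h : Lay G v d Z) (ho : OddHoleFree G) (hh : HatFree G) {i : ℕ} (hi : 1 ≤ i)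
    (ha : Ant G d i) (hu : NoUp G d (i + 1)) : NoUp G d (i + 2) := by
  intro n p hodd h3 hp hd0 hdn hin
  have hge : ∀ j, j ≤ n → i + 2 ≤ d (p j) := by
    intro j hj
    rcases Nat.eq_zero_or_pos j with h4 | h4
    · rw [h4, hd0]
    · rcases Nat.lt_or_ge j n with h5 | h5
      · exact (hin j h4 h5).le
      · have h6 : j = n := by omega
        rw [h6, hdn]
  obtain ⟨x, hx0, hxd⟩ := h.d2 (p 0) (by omega)
  obtain ⟨x', hxn, hxd'⟩ := h.d2 (p n) (by omega)
  have a1 : d x = i + 1 := by omega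
  have a2 : d x' = i + 1 := by omega
  have b1 : ∀ j, j ≤ n → x ≠ p j := fun j hj => up_ne (d := d) (by have := hge j hj; omega)
  have b2 : ∀ j, j ≤ n → x' ≠ p j := fun j hj => up_ne (d := d) (by have := hge j hj; omega)
  have c1 : ∀ j, 0 < j → j < n → ¬ G.Adj x (p j) := fun j h1 h2 =>
    up_nadj h (by have := hin j h1 h2; omega)
  have c2 : ∀ j, 0 < j → j < n → ¬ G.Adj x' (p j) := fun j h1 h2 =>
    up_nadj h (by have := hin j h1 h2; omega)
  by_cases e1 : G.Adj x (p n)
  · exact bg_odd ho hp hodd h3 hx0.symm e1 c1 (fun j hj => (b1 j hj).symm)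
  by_cases e2 : G.Adj x' (p 0)
  · exact bg_odd ho hp hodd h3 e2 hxn.symm c2 (fun j hj => (b2 j hj).symm)
  have e3 : x ≠ x' := by
    rintro rfl
    exact e1 hxn.symm
  have f1 : ∀ j, 0 < j → j ≤ n → ¬ G.Adj x (p j) := fun j h1 h2 => by
    rcases Nat.lt_or_ge j n with h5 | h5
    · exact c1 j h1 h5
    · have h6 : j = n := by omega
      rw [h6]
      exact e1
  have f2 : ∀ j, j < n → ¬ G.Adj x' (p j) := fun j h2 => by
    rcases Nat.eq_zero_or_pos j with h4 | h4
    · rw [h4]
      exact e2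
    · exact c2 j h4 h2
  by_cases e4 : G.Adj x x'
  · obtain ⟨w, u, t, hwd, hud, htd, hwx, hwx', hwu, hut, hwt, htx, htx'⟩ :=
      ha x x' (p 0) (p n) a1 a2 hd0 hdn e4 hx0.symm hxn.symm
    exact bg_hat hh hp hodd hx0.symm f1 b1 hxn.symm f2 b2 e4 hwx hwx'
      (fun j hj => up_nadj h (by have := hge j hj; omega)) hwu hut hwt
      (up_nadj h (by omega)) (up_nadj h (by omega))
      (fun j hj => up_nadj h (by have := hge j hj; omega)) htx htx'
      (fun j hj => up_nadj h (by have := hge j hj; omega))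
  · obtain ⟨r, hr, r0, rn, rj⟩ := up_ext hp hx0.symm hxn.symm f1 f2 b1 b2 e3 e4
    refine hu (n + 2) r (hodd.add_even (by decide)) (by omega) hr (by rw [r0, a1]) (by rw [rn, a2])
      (fun j h1 h2 => ?_)
    rw [rj j h1 h2]
    have := hge (j - 1) (by omega)
    omega

end Pool.Agent.H92.BG
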