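import Mathlib
import Pool.Agent.H92.TD.Defs
import Pool.Agent.H92.TD.Conn
import Pool.Agent.H92.BF.BFin
import Pool.Agent.H92.BG.GDefs
import Pool.Agent.H92.BG.Up
import Pool.Agent.H92.BG.Comp

/-!
Row BG_Fin.
`bg_all` : CompK i ∧ NoUp (i + 1) for all i ≥ 1, by induction.  i = 1: `bf_comp1` and `up2`.  i → i + 1: `ant` from CompK i, then `compS` and `upS`.
`bg_z2` : like `bf_z2` in Pool/Agent/H92/BF/BFin.lean, with 3 ≤ |Z|.  Suppose y has no neighbour in Z.  As there: p ∉ Z, z ∈ Z with p ~ z, z' ∈ Z with p ≁ z'.  |Z| ≥ 3 gives z2 ∈ Z different from z, z'.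
 p ≁ z2: B1free with p := z', p' := z2, a := v, b := p, q := y, t := z.    p ~ z2: B2free with p := z', a := v, b := p, q := y, t := z, t' := z2.
`bg_z3` : otherwise y is complete to Z and insert k Z is a larger stable set of neighbours of y (k ∉ Z, k anticomplete to Z by hk): contradiction to hmax.
`bg_claw` : suppose there is a claw v0; a, b, c.  Choose (v, Z) with |Z| largest among all pairs with Z a stable set of neighbours of v; |Z| ≥ 3 (exactly as in Pool/Agent/H92/TK/Fin.lean).  Then finish exactly as `bf_no` in Pool/Agent/H92/BF/BFin.lean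
 (layers, colouring by the parity of d), with `bg_z2` for `bf_z2` and `bg_all` for `bf_all`; Z3 from `bg_z3` (members of Z have layer 1, so they are different from and nonadjacent to vertices of layer 3).
-/

set_option autoImplicit false
set_option linter.unusedSectionVars false
set_option linter.unusedVariables false

namespace Pool.Agent.H92.BG

open SimpleGraph Finset Pool.Agent.H92.TD Pool.Agent.H92.BF

theorem bg_all {V : Type} [Fintype V] {G : SimpleGraph V} {v : V} {d : V → ℕ} {Z : Finset V}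
    (h : Lay G v d Z) (hZ3 : Z3 G d Z) (hh : HatFree G) (h5 : C5free G) (ho : OddHoleFree G) (i : ℕ)
    (hi : 1 ≤ i) : CompK G d i ∧ NoUp G d (i + 1) := by
  induction i, hi using Nat.le_induction with
  | base => exact ⟨bf_comp1 h h5, up2 h ho⟩
  | succ i hi ih =>
    have ha : Ant G d i := ant h h5 hZ3 hi ih.1
    exact ⟨compS h hh hi ha ih.2, upS h ho hh hi ha ih.2⟩

theorem bg_z2 {V : Type} [Fintype V] {G : SimpleGraph V} (h1 : B1free G) (h2 : B2free G) {v : V}
    {Z : Finset V} (hZ : ∀ z ∈ Z, G.Adj v z) (hZs : ∀ z ∈ Z, ∀ z' ∈ Z, ¬ G.Adj z z')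
    (h3 : 3 ≤ Z.card)
    (hmax : ∀ (w : V) (Z' : Finset V), (∀ z ∈ Z', G.Adj w z) → (∀ z ∈ Z', ∀ z' ∈ Z', ¬ G.Adj z z') →
      Z'.card ≤ Z.card)
    {y p : V} (hyv : y ≠ v) (hvy : ¬ G.Adj v y) (hvp : G.Adj v p) (hpy : G.Adj p y) :
    ∃ z ∈ Z, G.Adj z y := by
  have hB1 := h1
  have hB2 := h2
  have hcard := h3
  clear h1 h2 h3
  classical
  by_contra hc
  push Not at hc
  have hpZ : p ∉ Z := fun hp => hc p hp hpy
  have hyZ : y ∉ Z := fun hy => hvy (hZ y hy)
  have h1 : ∃ z ∈ Z, G.Adj p z := by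
    by_contra h1
    push Not at h1
    have h2 := hmax v (insert p Z) (fun z hz => by
      rcases Finset.mem_insert.1 hz with rfl | hz
      · exact hvp
      · exact hZ z hz) (fun z hz z' hz' => by
      rcases Finset.mem_insert.1 hz with hz1 | hz1
      · rcases Finset.mem_insert.1 hz' with hz2 | hz2
        · rw [hz1, hz2]
          exact G.loopless.irrefl _
        · rw [hz1]
          exact h1 z' hz2
      · rcases Finset.mem_insert.1 hz' with hz2 | hz2
        · rw [hz2]
          exact fun e => h1 z hz1 e.symm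
        · exact hZs z hz1 z' hz2)
    rw [Finset.card_insert_of_notMem hpZ] at h2
    omega
  have h3 : ∃ z ∈ Z, ¬ G.Adj p z := by
    by_contra h3
    push Not at h3
    have h2 := hmax p (insert y Z) (fun z hz => by
      rcases Finset.mem_insert.1 hz with rfl | hz
      · exact hpy
      · exact h3 z hz) (fun z hz z' hz' => by
      rcases Finset.mem_insert.1 hz with hz1 | hz1
      · rcases Finset.mem_insert.1 hz' with hz2 | hz2
        · rw [hz1, hz2]
          exact G.loopless.irrefl _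
        · rw [hz1]
          exact fun e => hc z' hz2 e.symm
      · rcases Finset.mem_insert.1 hz' with hz2 | hz2
        · rw [hz2]
          exact hc z hz1
        · exact hZs z hz1 z' hz2)
    rw [Finset.card_insert_of_notMem hyZ] at h2
    omega
  obtain ⟨z, hz, hpz⟩ := h1
  obtain ⟨z', hz', hpz'⟩ := h3
  obtain ⟨z2, hz2, hne⟩ : ∃ z2 ∈ Z, z2 ∉ ({z, z'} : Finset V) := by
    by_contra hcon
    push Not at hcon
    have hsub : Z ⊆ {z, z'} := hcon
    have e1 := Finset.card_le_card hsub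
    have e2 : ({z, z'} : Finset V).card ≤ 2 := Finset.card_le_two
    omega
  have hn1 : z2 ≠ z := fun e => hne (by rw [e]; exact Finset.mem_insert_self _ _)
  have hn2 : z2 ≠ z' := fun e => hne (by
    rw [e]
    exact Finset.mem_insert_of_mem (Finset.mem_singleton_self _))
  by_cases hp2 : G.Adj p z2
  · exact hB2 z' v p y z z2 (hZ z' hz').symm hvp hpy (hZ z hz).symm hpz.symm (hZ z2 hz2).symm
      hp2.symm (Ne.symm hn1) (hZs z hz z2 hz2) (fun e => hpz' e.symm) (hc z' hz') hvy
      (hZs z' hz' z hz) (fun e => hc z hz e.symm) (hZs z' hz' z2 hz2) (fun e => hc z2 hz2 e.symm)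
  · exact hB1 z' z2 v p y z (hZ z' hz').symm (hZ z2 hz2).symm hvp hpy (hZ z hz).symm hpz.symm
      (Ne.symm hn2) (hZs z' hz' z2 hz2) (fun e => hpz' e.symm) (hc z' hz') hvy (hZs z' hz' z hz)
      (fun e => hc z hz e.symm) (fun e => hp2 e.symm) (hc z2 hz2) (hZs z2 hz2 z hz)

theorem bg_z3 {V : Type} [Fintype V] {G : SimpleGraph V} {Z : Finset V}
    (hZs : ∀ z ∈ Z, ∀ z' ∈ Z, ¬ G.Adj z z')
    (hmax : ∀ (w : V) (Z' : Finset V), (∀ z ∈ Z', G.Adj w z) → (∀ z ∈ Z', ∀ z' ∈ Z', ¬ G.Adj z z') →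
      Z'.card ≤ Z.card)
    {y k : V} (hyk : G.Adj y k) (hkZ : k ∉ Z) (hk : ∀ z ∈ Z, ¬ G.Adj z k) :
    ∃ z ∈ Z, ¬ G.Adj z y := by
  classical
  by_contra hc
  push Not at hc
  have h2 := hmax y (insert k Z) (fun z hz => by
    rcases Finset.mem_insert.1 hz with rfl | hz
    · exact hyk
    · exact (hc z hz).symm) (fun z hz z' hz' => by
    rcases Finset.mem_insert.1 hz with hz1 | hz1
    · rcases Finset.mem_insert.1 hz' with hz2 | hz2
      · rw [hz1, hz2]
        exact G.loopless.irrefl _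
      · rw [hz1]
        exact fun e => hk z' hz2 e.symm
    · rcases Finset.mem_insert.1 hz' with hz2 | hz2
      · rw [hz2]
        exact hk z hz1
      · exact hZs z hz1 z' hz2)
  rw [Finset.card_insert_of_notMem hkZ] at h2
  omega

theorem bg_claw {V : Type} [Fintype V] {G : SimpleGraph V} {m : ℕ} (h : MinCE G m) (h1 : B1free G)
    (h2 : B2free G) (hh : HatFree G) (ho : OddHoleFree G) : Clawfree G := by
  classical
  have hone := h.one
  intro v0 a b c hva hvb hvc hab hbc hac nab nbc nac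
  obtain ⟨P, hP⟩ : ∃ P : Finset (V × Finset V), P = univ.filter (fun p : V × Finset V =>
      (∀ z ∈ p.2, G.Adj p.1 z) ∧ ∀ z ∈ p.2, ∀ z' ∈ p.2, ¬ G.Adj z z') := ⟨_, rfl⟩
  have hmem : ∀ (w : V) (Z : Finset V), (w, Z) ∈ P ↔
      (∀ z ∈ Z, G.Adj w z) ∧ ∀ z ∈ Z, ∀ z' ∈ Z, ¬ G.Adj z z' := by
    intro w Z
    rw [hP, mem_filter]
    exact ⟨fun h => h.2, fun h => ⟨mem_univ _, h⟩⟩
  have hir : ∀ x : V, ¬ G.Adj x x := fun x => G.loopless.irrefl x
  have h0 : (v0, ({a, b, c} : Finset V)) ∈ P := by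
    rw [hmem]
    constructor
    · intro z hz
      simp only [mem_insert, mem_singleton] at hz
      rcases hz with rfl | rfl | rfl
      · exact hva
      · exact hvb
      · exact hvc
    · intro z hz z' hz'
      simp only [mem_insert, mem_singleton] at hz hz'
      rcases hz with rfl | rfl | rfl <;> rcases hz' with rfl | rfl | rfl
      · exact hir _
      · exact nab
      · exact nac
      · exact fun e => nab e.symm
      · exact hir _
      · exact nbc
      · exact fun e => nac e.symm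
      · exact fun e => nbc e.symm
      · exact hir _
  obtain ⟨⟨v, Z⟩, hvZ, hmax0⟩ := Finset.exists_max_image P (fun p => p.2.card) ⟨_, h0⟩
  obtain ⟨hZ, hZs⟩ := (hmem v Z).1 hvZ
  have h3 : 3 ≤ Z.card := by
    have h4 := hmax0 _ h0
    have h5 : ({a, b, c} : Finset V).card = 3 := Finset.card_eq_three.2 ⟨a, b, c, hab, hac, hbc, rfl⟩
    simp only at h4
    rw [h5] at h4
    exact h4
  have hmax : ∀ (w : V) (Z' : Finset V), (∀ z ∈ Z', G.Adj w z) → (∀ z ∈ Z', ∀ z' ∈ Z', ¬ G.Adj z z') →
      Z'.card ≤ Z.card := fun w Z' h1 h2 => hmax0 (w, Z') ((hmem w Z').2 ⟨h1, h2⟩)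
  obtain ⟨d, d0', d1, d2⟩ := exists_layer (connected_of h) {v} (Finset.singleton_nonempty v)
  have d0 : ∀ y, d y = 0 ↔ y = v := fun y => by rw [d0', Finset.mem_singleton]
  have dv : d v = 0 := (d0 v).2 rfl
  have hnb : ∀ y, d y = 1 → G.Adj y v := by
    intro y hy
    obtain ⟨x, hx, hxd⟩ := d2 y (by omega)
    have hx0 : x = v := (d0 x).1 (by omega)
    rw [← hx0]
    exact hx
  have hZ2 : ∀ y, d y = 2 → ∃ z ∈ Z, G.Adj z y := by
    intro y hy
    obtain ⟨p, hp, hpd⟩ := d2 y (by omega)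
    refine bg_z2 h1 h2 hZ hZs h3 hmax (y := y) (p := p) ?_ ?_ (hnb p (by omega)).symm hp.symm
    · intro e
      rw [e, dv] at hy
      omega
    · intro e
      have := d1 y v e.symm
      omega
  have hL : Lay G v d Z := ⟨d0, d1, d2, hZ, hZs, hZ2⟩
  have hdz : ∀ z ∈ Z, d z ≤ 1 := by
    intro z hz
    have e1 := d1 z v (hZ z hz).symm
    omega
  have hZ3 : Z3 G d Z := by
    intro y k hy hk hyk
    refine bg_z3 hZs hmax hyk ?_ ?_
    · intro hkZ
      have e1 := hdz k hkZ
      omega
    · intro z hz e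
      have e1 := hdz z hz
      have e2 := d1 k z e.symm
      omega
  obtain ⟨b, K, hK, hbK⟩ := h.bad (fun x => decide (Even (d x)))
  obtain ⟨k0, hk0⟩ : K.Nonempty := by
    rw [← Finset.card_pos, hK.2]
    omega
  have hall : ∀ k ∈ K, d k = d k0 := by
    intro k hk
    by_cases hkk : k = k0
    · rw [hkk]
    · have had : G.Adj k k0 := hK.1 hk hk0 hkk
      have e1 := d1 k k0 had
      have e2 := d1 k0 k had.symm
      have e3 : decide (Even (d k)) = decide (Even (d k0)) := (hbK k hk).trans (hbK k0 hk0).symm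
      have e4 : Even (d k) ↔ Even (d k0) := by simpa using e3
      rw [Nat.even_iff, Nat.even_iff] at e4
      omega
  have hno : ∀ x, ¬ ∀ k ∈ K, G.Adj x k := fun x hx => h.free _ (clique_insert hK hx)
  rcases Nat.lt_or_ge (d k0) 2 with hj | hj
  · rcases Nat.lt_or_ge (d k0) 1 with hj0 | hj1
    · have hsub : K ⊆ {v} := by
        intro k hk
        rw [Finset.mem_singleton]
        exact (d0 k).1 (by rw [hall k hk]; omega)
      have h5 := Finset.card_le_card hsub
      rw [hK.2, Finset.card_singleton] at h5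
      omega
    · exact hno v (fun k hk => (hnb k (by rw [hall k hk]; omega)).symm)
  · obtain ⟨x, -, hx⟩ := (bg_all hL hZ3 hh h.c5 ho (d k0 - 1) (by omega)).1 K ⟨k0, hk0⟩ hK.1
      (fun k hk => by rw [hall k hk]; omega)
    exact hno x hx

end Pool.Agent.H92.BG
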