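import Mathlib
import Pool.Agent.H92.TF.FAsm
import Pool.Agent.H92.BG.GFin

/-!
MP_5aa732_co: assembly of the stronger form of the theorem on bull-free odd-hole-free graphs.
-/

set_option autoImplicit false
set_option linter.unusedSectionVars false
set_option linter.unusedVariables false

namespace Pool.Agent.H92.BG

open SimpleGraph Finset Pool.Agent.H92.TD Pool.Agent.H92.TF Pool.Agent.H92.BF

variable {V : Type} [Fintype V] {G : SimpleGraph V} {m : ℕ}

theorem B1free_of
    (h : IsEmpty (SimpleGraph.fromEdgeSet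
      ({s(0, 1), s(1, 2), s(2, 3), s(1, 4), s(2, 4), s(1, 5)} : Set (Sym2 (Fin 6))) ↪g G)) :
    B1free G := by
  intro p p' a b q t hpa hpa' hab hbq hta htb hpp npp npb npq naq npt nqt npb' npq' npt'
  have e1 : p ≠ a := G.ne_of_adj hpa
  have e2 : a ≠ b := G.ne_of_adj hab
  have e3 : b ≠ q := G.ne_of_adj hbq
  have e4 : t ≠ a := G.ne_of_adj hta
  have e5 : t ≠ b := G.ne_of_adj htb
  have e6 : p ≠ b := fun h => npq (by rw [h]; exact hbq)
  have e7 : p ≠ q := fun h => npb (by rw [h]; exact hbq.symm)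
  have e8 : a ≠ q := fun h => npq (by rw [← h]; exact hpa)
  have e9 : p ≠ t := fun h => npb (by rw [h]; exact htb)
  have e10 : q ≠ t := fun h => naq (by rw [h]; exact hta.symm)
  have e11 : p' ≠ a := G.ne_of_adj hpa'
  have e12 : p' ≠ b := fun h => npq' (by rw [h]; exact hbq)
  have e13 : p' ≠ q := fun h => npb' (by rw [h]; exact hbq.symm)
  have e14 : p' ≠ t := fun h => npb' (by rw [h]; exact htb)
  have hf : Function.Injective (![p, a, b, q, t, p'] : Fin 6 → V) := by
    intro i j hij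
    fin_cases i <;> fin_cases j <;> simp_all
  refine h.false ⟨⟨(![p, a, b, q, t, p'] : Fin 6 → V), hf⟩, ?_⟩
  intro i j
  have nbp : ¬ G.Adj b p := fun h => npb h.symm
  have nqp : ¬ G.Adj q p := fun h => npq h.symm
  have nqa : ¬ G.Adj q a := fun h => naq h.symm
  have ntp : ¬ G.Adj t p := fun h => npt h.symm
  have ntq : ¬ G.Adj t q := fun h => nqt h.symm
  have npp' : ¬ G.Adj p' p := fun h => npp h.symm
  have nbp' : ¬ G.Adj b p' := fun h => npb' h.symm
  have nqp' : ¬ G.Adj q p' := fun h => npq' h.symm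
  have ntp' : ¬ G.Adj t p' := fun h => npt' h.symm
  have hap := hpa.symm
  have hap' := hpa'.symm
  have hba := hab.symm
  have hqb := hbq.symm
  have hat := hta.symm
  have hbt := htb.symm
  fin_cases i <;> fin_cases j <;>
    simp [SimpleGraph.fromEdgeSet_adj, hpa, hab, hbq, hta, htb, npb, npq, naq, npt, nqt, nbp, nqp, nqa, ntp,
      ntq, hap, hba, hqb, hat, hbt, hpa', hap', npp, npp', npb', npq', npt', nbp', nqp', ntp']

theorem B2free_of
    (h : IsEmpty (SimpleGraph.fromEdgeSet
      ({s(0, 1), s(1, 2), s(2, 3), s(1, 4), s(2, 4), s(1, 5), s(2, 5)} : Set (Sym2 (Fin 6))) ↪g G)) :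
    B2free G := by
  intro p a b q t t' hpa hab hbq hta htb hta' htb' htt ntt npb npq naq npt nqt npt' nqt'
  have e1 : p ≠ a := G.ne_of_adj hpa
  have e2 : a ≠ b := G.ne_of_adj hab
  have e3 : b ≠ q := G.ne_of_adj hbq
  have e4 : t ≠ a := G.ne_of_adj hta
  have e5 : t ≠ b := G.ne_of_adj htb
  have e6 : p ≠ b := fun h => npq (by rw [h]; exact hbq)
  have e7 : p ≠ q := fun h => npb (by rw [h]; exact hbq.symm)
  have e8 : a ≠ q := fun h => npq (by rw [← h]; exact hpa)
  have e9 : p ≠ t := fun h => npb (by rw [h]; exact htb)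
  have e10 : q ≠ t := fun h => naq (by rw [h]; exact hta.symm)
  have e11 : t' ≠ a := G.ne_of_adj hta'
  have e12 : t' ≠ b := G.ne_of_adj htb'
  have e13 : p ≠ t' := fun h => npb (by rw [h]; exact htb')
  have e14 : q ≠ t' := fun h => naq (by rw [h]; exact hta'.symm)
  have hf : Function.Injective (![p, a, b, q, t, t'] : Fin 6 → V) := by
    intro i j hij
    fin_cases i <;> fin_cases j <;> simp_all
  refine h.false ⟨⟨(![p, a, b, q, t, t'] : Fin 6 → V), hf⟩, ?_⟩
  intro i j
  have nbp : ¬ G.Adj b p := fun h => npb h.symm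
  have nqp : ¬ G.Adj q p := fun h => npq h.symm
  have nqa : ¬ G.Adj q a := fun h => naq h.symm
  have ntp : ¬ G.Adj t p := fun h => npt h.symm
  have ntq : ¬ G.Adj t q := fun h => nqt h.symm
  have ntt' : ¬ G.Adj t' t := fun h => ntt h.symm
  have ntp' : ¬ G.Adj t' p := fun h => npt' h.symm
  have ntq' : ¬ G.Adj t' q := fun h => nqt' h.symm
  have hap := hpa.symm
  have hba := hab.symm
  have hqb := hbq.symm
  have hat := hta.symm
  have hbt := htb.symm
  have hat' := hta'.symm
  have hbt' := htb'.symm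
  fin_cases i <;> fin_cases j <;>
    simp [SimpleGraph.fromEdgeSet_adj, hpa, hab, hbq, hta, htb, npb, npq, naq, npt, nqt, nbp, nqp, nqa, ntp,
      ntq, hap, hba, hqb, hat, hbt, hta', htb', hat', hbt', ntt, ntt', npt', nqt', ntp', ntq']

theorem B1free_induce {V : Type} {G : SimpleGraph V} (s : Set V) (hk : B1free G) :
    B1free (G.induce s) := by
  intro p p' a b q t hpa hpa' hab hbq hta htb hpp npp npb npq naq npt nqt npb' npq' npt'
  exact hk p p' a b q t hpa hpa' hab hbq hta htb (fun h => hpp (Subtype.ext h)) npp npb npq naq npt nqt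
    npb' npq' npt'

theorem B2free_induce {V : Type} {G : SimpleGraph V} (s : Set V) (hk : B2free G) :
    B2free (G.induce s) := by
  intro p a b q t t' hpa hab hbq hta htb hta' htb' htt ntt npb npq naq npt nqt npt' nqt'
  exact hk p a b q t t' hpa hab hbq hta htb hta' htb' (fun h => htt (Subtype.ext h)) ntt npb npq naq npt
    nqt npt' nqt'

theorem HatFree_induce {V : Type} {G : SimpleGraph V} (s : Set V) (hk : HatFree G) :
    HatFree (G.induce s) := by
  intro k f i j w u t hij hw hwu hut nwt hu ht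
  exact hk k ((SimpleGraph.Embedding.induce s).comp f) i j w u t hij hw hwu hut nwt hu ht

theorem core_bg (m : ℕ) (hm : 1 ≤ m) (V : Type) [Fintype V] (G : SimpleGraph V)
    (hf : G.CliqueFree (m + 2)) (ho : OddHoleFree G) (h1 : B1free G) (h2 : B2free G)
    (hh : HatFree G) :
    ∃ c : V → Bool, ∀ K : Finset V, G.IsNClique (m + 1) K → ∀ b : Bool, ¬ ∀ x ∈ K, c x = b := by
  refine core_gen2 (fun V G => B1free G ∧ B2free G ∧ HatFree G ∧ OddHoleFree G) ?_ ?_ ?_ m hm V G hf
    ⟨h1, h2, hh, ho⟩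
  · intro V G s hP
    exact ⟨B1free_induce s hP.1, B2free_induce s hP.2.1, HatFree_induce s hP.2.2.1,
      oddHoleFree_induce' s hP.2.2.2⟩
  · intro V _ G m hP hM hs
    exact bg_claw hM hP.1 hP.2.1 hP.2.2.1 hP.2.2.2
  · intro V _ G hP
    exact hP.2.2.2

theorem gasm_back [DecidableEq V] (ho : OddHoleFree G) (h1 : B1free G) (h2 : B2free G)
    (hh : HatFree G) (S : Finset V) (hS : ∃ u ∈ S, ∃ v ∈ S, G.Adj u v) :
    ∃ A : Finset V, A ⊆ S ∧
      (∀ T : Finset V, T ⊆ A → G.IsClique (T : Set V) →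
          ∃ T' : Finset V, T' ⊆ S ∧ G.IsClique (T' : Set V) ∧ T.card < T'.card) ∧
      (∀ T : Finset V, T ⊆ S \ A → G.IsClique (T : Set V) →
          ∃ T' : Finset V, T' ⊆ S ∧ G.IsClique (T' : Set V) ∧ T.card < T'.card) := by
  refine asm_back_gen (fun _ _ => True) S ?_ hS
  intro m hm hf _
  exact core_bg m hm _ _ hf (oddHoleFree_induce _ ho) (B1free_induce _ h1) (B2free_induce _ h2)
    (HatFree_induce _ hh)

end Pool.Agent.H92.BG
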